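import Mathlib
import Pool.Agent.U11.Irr4
import Pool.Agent.U11.Arb

set_option autoImplicit false

/-!
# The Harbourne-Hirschowitz conjecture at eleven points: arbitrary multiplicities, at most one curve

Let `w 0, ..., w 10 ≥ 0` be ARBITRARY multiplicities at 11 general points of the complex projective plane
(one open set for all degrees). In EVERY degree `d` with `√11 (2 d + 3) < 11 + 2 ∑ w i` the system of the
forms of degree `d` with multiplicity at least `w i` at the points is not special, or it consists of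
exactly one curve although there are at most as many monomials as conditions; then `3 ∣ d`, the curve has
multiplicity exactly `w i` at every point, the multiplicities satisfy a sharp linear inequality, and,
given `ε > 0`, `11 + 2 ∑ w i < √11 (2 d + 3) + ε` as soon as `d` is large.
-/

namespace Pool.Agent.Results.MP_6b2d39_ag.ElevenPointsOneCurve

open MvPolynomial

/-- the homogeneous ideal of the point `(p 0 : p 1 : 1)` -/
noncomputable def point (p : Fin 2 → ℂ) : Ideal (MvPolynomial (Fin 3) ℂ) :=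
  Ideal.span ({X 0 - C (p 0) * X 2, X 1 - C (p 1) * X 2} : Set (MvPolynomial (Fin 3) ℂ))

/-- Forms of degree `d` vanishing to order at least `w i` at the points `(P i 0 : P i 1 : 1)`. -/
noncomputable def forms {n : ℕ} (P : Fin n → Fin 2 → ℂ) (d : ℕ) (w : Fin n → ℕ) :
    Submodule ℂ (MvPolynomial (Fin 3) ℂ) :=
  homogeneousSubmodule (Fin 3) ℂ d ⊓
    Submodule.restrictScalars ℂ (⨅ i : Fin n, point (P i) ^ (w i))

/-- The vector space dimension is `max (0, χ)`, `χ = C(d+2,2) - ∑ C(w i + 1, 2)`. -/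
def NonSpecial {n : ℕ} (P : Fin n → Fin 2 → ℂ) (d : ℕ) (w : Fin n → ℕ) : Prop :=
  Module.finrank ℂ ↥(forms P d w) = (d + 2).choose 2 - ∑ i, (w i + 1).choose 2

/-- The excess `∑ (w i - g)⁺` and the defect `∑ (g - w i)⁺` of the multiplicities with respect to
`g = ⌊d / √11⌋` satisfy `(10 - 3 √11) excess + defect ≤ √11 d - ∑ w i`. -/
def Near (d : ℕ) (w : Fin 11 → ℕ) : Prop :=
  (10 - 3 * √11) * ((∑ i, (w i - ⌊(d : ℝ) / √11⌋₊) : ℕ) : ℝ) +
    ((∑ i, (⌊(d : ℝ) / √11⌋₊ - w i) : ℕ) : ℝ) ≤ √11 * d - ((∑ i, w i : ℕ) : ℝ)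

theorem result (ε : ℝ) (hε : 0 < ε) : ∃ d₀ : ℕ, ∀ w : Fin 11 → ℕ,
    ∃ F : MvPolynomial (Fin 11 × Fin 2) ℂ, F ≠ 0 ∧
      ∀ P : Fin 11 → Fin 2 → ℂ, eval (fun ij : Fin 11 × Fin 2 => P ij.1 ij.2) F ≠ 0 →
        ∀ d : ℕ, √11 * (2 * (d : ℝ) + 3) < 11 + 2 * ((∑ i, w i : ℕ) : ℝ) →
          NonSpecial P d w ∨
          ((d + 2).choose 2 ≤ ∑ i, (w i + 1).choose 2 ∧
            Module.finrank ℂ ↥(forms P d w) = 1 ∧ 3 ∣ d ∧ Near d w ∧
            (d₀ ≤ d → 11 + 2 * ((∑ i, w i : ℕ) : ℝ) < √11 * (2 * (d : ℝ) + 3) + ε) ∧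
            ∀ f ∈ forms P d w, f ≠ 0 → ∀ i, f ∈ point (P i) ^ (w i) ∧ f ∉ point (P i) ^ (w i + 1)) := by
  obtain ⟨d₀, hd₀⟩ := U11.Emp_lin11 hε
  refine ⟨d₀, fun w => ?_⟩
  obtain ⟨F1, hF1, h1⟩ := U11.arb_one w
  obtain ⟨F2, hF2, h2⟩ := U11.dims (n := 11) (w := w)
    (G := fun d => √11 * (2 * d + 3) < 11 + 2 * ((∑ i, w i : ℕ) : ℝ))
    (fun d hd => Or.inr (Or.inr (U11.lin11_one w d hd)))
  obtain ⟨F3, hF3, h3⟩ := Pool.Agent.TH864.SX.expDim_of_or' (w := w)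
    (G := fun d => d₀ ≤ d ∧ √11 * (2 * (d : ℝ) + 3) + ε ≤ 11 + 2 * ((∑ i, w i : ℕ) : ℝ))
    (fun d hd => Or.inl (hd₀ w d hd.1 hd.2))
  refine ⟨(F1 * F2 * F3).map (algebraMap ℚ ℂ),
    H932R3.map_ne_zero_of (mul_ne_zero (mul_ne_zero hF1 hF2) hF3), fun P hP d hd => ?_⟩
  rw [MvPolynomial.eval_map] at hP
  have hP' : aeval (fun ij : Fin 11 × Fin 2 => P ij.1 ij.2) (F1 * F2 * F3) ≠ 0 := hP
  rw [map_mul, map_mul] at hP'
  have hP3 := right_ne_zero_of_mul hP'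
  have hP2 := right_ne_zero_of_mul (left_ne_zero_of_mul hP')
  have hP1 := left_ne_zero_of_mul (left_ne_zero_of_mul hP')
  obtain ⟨-, k2⟩ := h1 P hP1 d hd
  rcases h2 P hP2 d hd with h4 | ⟨h4, h5⟩
  · exact Or.inl h4
  have h5' : Module.finrank ℂ ↥(forms P d w) = 1 := h5
  by_cases h6 : d₀ ≤ d ∧ √11 * (2 * (d : ℝ) + 3) + ε ≤ 11 + 2 * ((∑ i, w i : ℕ) : ℝ)
  · exact Or.inl (h3 P hP3 d h6)
  right
  have hne : ∃ f ∈ forms P d w, f ≠ 0 := by
    by_contra hcon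
    push Not at hcon
    have h7 : forms P d w = ⊥ := (Submodule.eq_bot_iff _).2 hcon
    have h8 := h5'
    rw [h7, finrank_bot] at h8
    exact zero_ne_one h8
  obtain ⟨f0, hf0, hf0'⟩ := hne
  obtain ⟨g1, g2, -⟩ := k2 f0 hf0 hf0'
  refine ⟨h4, h5', g1, g2, fun h8 => ?_, fun f hf hf' i => ?_⟩
  · by_contra hcon
    push Not at hcon
    exact h6 ⟨h8, hcon⟩
  · exact ⟨(TH387.EX.mem_V.1 hf).2 i, (k2 f hf hf').2.2 i⟩

end Pool.Agent.Results.MP_6b2d39_ag.ElevenPointsOneCurve
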