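import Pool.Agent.U828.KD.SH

/-!
# Harbourne-Hirschowitz for near-uniform systems whose sum of multiplicities is an arbitrary function of given order

Let `f` be an ARBITRARY function on the natural numbers of some order `c > 0`: for one `d > c` the differences of
order `d` of `f` have a constant sign and are `t ^ (c - d + o(1))` in absolute value. There is no smoothness and no formula; examples are `t ^ c` with `c` not an integer, `t ^ j log t`, the functions of
a Hardy field with the same growth, all these plus arbitrary real polynomials of degree below the order of the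
differences, and irregular functions.

**Theorem.** For every `n ≥ 10` and every such `f` there is a `κ > 0` such that for all large `N` all but at most
`bad n * N + N ^ (1 - κ)` of the integers `t` in `(N, 2 N]` with `f t ≥ 1` have this property: NO system of plane
curves with positive multiplicities `m`, `m + 1` at `n` general points (at least one of them may be missing) and with
the sum `⌊f t⌋` of the multiplicities is special, in EVERY degree. Here `bad n < 1`; `bad n = 0` if `n` is a square,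
and `bad 10 < 0.163`.

The starting file `NearUniformThinSums` has generalised polynomials with a non-integral leading exponent. The new
ingredient is a derivative test for arbitrary functions (`Pool.Agent.U828.KD.order_exp`), which gives the equidistribution
of `⌊f t⌋ / √n` modulo one up to a power of `N`; the integral part is treated with the pairs `(f(t), f(t) / √n)`.
-/

set_option autoImplicit false

namespace Pool.Agent.Results.MP_6b2d39_ag.FunctionsOfGivenOrder

open MvPolynomial Filter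

/-- Forms of degree `d` vanishing to order at least `w i` at the points `(P i 0 : P i 1 : 1)`. -/
noncomputable def forms {n : ℕ} (P : Fin n → Fin 2 → ℂ) (d : ℕ) (w : Fin n → ℕ) :
    Submodule ℂ (MvPolynomial (Fin 3) ℂ) :=
  homogeneousSubmodule (Fin 3) ℂ d ⊓
    Submodule.restrictScalars ℂ
      (⨅ i : Fin n, (Ideal.span {X 0 - C (P i 0) * X 2, X 1 - C (P i 1) * X 2} :
        Ideal (MvPolynomial (Fin 3) ℂ)) ^ (w i))

/-- The system of the forms of degree `d` with multiplicities `w` at the points `P` is not special: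
its vector space dimension is `max (0, (d + 2) (d + 1) / 2 - ∑ (w i + 1) (w i) / 2)`. -/
def NonSpecial {n : ℕ} (P : Fin n → Fin 2 → ℂ) (d : ℕ) (w : Fin n → ℕ) : Prop :=
  (Module.finrank ℂ ↥(forms P d w) : ℤ) =
    max 0 (((d + 2).choose 2 : ℤ) - ∑ i, ((w i + 1).choose 2 : ℤ))

/-- For general points (one nonempty open set for all degrees) the systems of curves with the
multiplicities `w` are not special, in every degree. -/
def NeverSpecial {n : ℕ} (w : Fin n → ℕ) : Prop :=
  ∃ F : MvPolynomial (Fin n × Fin 2) ℂ, F ≠ 0 ∧ ∀ P : Fin n → Fin 2 → ℂ,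
    MvPolynomial.eval (fun ij : Fin n × Fin 2 => P ij.1 ij.2) F ≠ 0 → ∀ d : ℕ, NonSpecial P d w

/-- All vectors of `n` positive multiplicities with sum `W` which take at most two consecutive values
`m`, `m + 1` are good in every degree. -/
def Good (n W : ℕ) : Prop :=
  ∀ m : ℕ, 0 < m → ∀ w : Fin n → ℕ, (∀ i, w i = m ∨ w i = m + 1) → ∑ i, w i = W → NeverSpecial w

/-- The differences of order `d` of `f` have a constant sign and are `t ^ (c - d + o(1))` in absolute value. -/
def Order (d : ℕ) (c : ℝ) (f : ℕ → ℝ) : Prop :=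
  ∀ ε : ℝ, 0 < ε → ∃ T : ℕ,
    (∀ t : ℕ, T ≤ t → (t : ℝ) ^ (c - d - ε) ≤ (fwdDiff 1)^[d] f t ∧
      (fwdDiff 1)^[d] f t ≤ (t : ℝ) ^ (c - d + ε)) ∨
    (∀ t : ℕ, T ≤ t → (t : ℝ) ^ (c - d - ε) ≤ -(fwdDiff 1)^[d] f t ∧
      -(fwdDiff 1)^[d] f t ≤ (t : ℝ) ^ (c - d + ε))

open Classical in
/-- The bound for the proportion of the bad sums for `n` points. -/
noncomputable def bad (n : ℕ) : ℝ :=
  if IsSquare n then 0
  else (min (√(n : ℝ) - 3) (2 / 3 + 9 / (4 * √(n : ℝ))) +
    min (√(n : ℝ) - 3) (2 / 3 + 1 / (4 * √(n : ℝ)))) / 2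

theorem never_of {n : ℕ} {w : Fin n → ℕ} (h : Pool.Agent.N141.SG.ExN w) : NeverSpecial w := by
  obtain ⟨F, hF, hF'⟩ := h
  refine ⟨F.map (algebraMap ℚ ℂ), Pool.Agent.H932R3.map_ne_zero_of hF, fun P hP d => ?_⟩
  rw [MvPolynomial.eval_map] at hP
  have h1 := hF' P hP d
  unfold Pool.Agent.H932R3.ExpDim at h1
  unfold NonSpecial forms
  rw [h1]
  have e : ∑ i, ((w i + 1).choose 2 : ℤ) = ((∑ i, (w i + 1).choose 2 : ℕ) : ℤ) := by
    push_cast
    rfl
  rw [e]
  omega

theorem bad_ten : bad 10 < 0.163 := by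
  have h1 : √((10 : ℕ) : ℝ) < 3.163 := by
    rw [Real.sqrt_lt' (by norm_num)]
    norm_num
  have h0 : ¬ IsSquare 10 := by
    rintro ⟨k, hk⟩
    have : k ≤ 3 := by nlinarith
    interval_cases k <;> omega
  unfold bad
  rw [if_neg h0]
  have h2 := min_le_left (√((10 : ℕ) : ℝ) - 3) (2 / 3 + 9 / (4 * √((10 : ℕ) : ℝ)))
  have h3 := min_le_left (√((10 : ℕ) : ℝ) - 3) (2 / 3 + 1 / (4 * √((10 : ℕ) : ℝ)))
  linarith

theorem good_of {n W : ℕ} (h : Pool.Agent.N141.SG.GoodN n W) : Good n W :=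
  fun m hm w hw hsum => never_of (h m hm w hw hsum)

/-- **Main result.** -/
theorem result :
    (∀ n : ℕ, 10 ≤ n → ∀ (d : ℕ) (c : ℝ), 2 ≤ d → 0 < c → c < d → ∀ f : ℕ → ℝ, Order d c f →
      ∃ κ : ℝ, 0 < κ ∧ ∃ N₀ : ℕ, ∀ N : ℕ, N₀ ≤ N →
        ({t : ℕ | t ∈ Finset.Ioc N (2 * N) ∧ 1 ≤ f t ∧ ¬ Good n ⌊f t⌋₊}.ncard : ℝ) ≤
          bad n * N + (N : ℝ) ^ (1 - κ)) ∧
    (∀ n : ℕ, 10 ≤ n → bad n < 1) ∧ bad 10 < 0.163 := by
  refine ⟨fun n hn d c hd hc0 hcd f hf => ?_, fun n hn => Pool.Agent.N141.SG.badN_lt hn, bad_ten⟩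
  obtain ⟨κ, hκ, N₀, h⟩ := Pool.Agent.U828.KD.near_order d hd c hc0 hcd f hf hn
  refine ⟨κ, hκ, N₀, fun N hN => le_trans ?_ (h N hN)⟩
  have h1 : {t : ℕ | t ∈ Finset.Ioc N (2 * N) ∧ 1 ≤ f t ∧ ¬ Good n ⌊f t⌋₊} ⊆
      {t : ℕ | t ∈ Finset.Ioc N (2 * N) ∧ 1 ≤ f t ∧ ¬ Pool.Agent.N141.SG.GoodN n ⌊f t⌋₊} :=
    fun t ht => ⟨ht.1, ht.2.1, fun h2 => ht.2.2 (good_of h2)⟩
  exact_mod_cast Set.ncard_le_ncard h1 ((Finset.finite_toSet (Finset.Ioc N (2 * N))).subset fun t ht => ht.1)

end Pool.Agent.Results.MP_6b2d39_ag.FunctionsOfGivenOrder
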