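import Mathlib
import Pool.Agent.U390.NT.Base
import Pool.Agent.TH442.NF.HH

set_option autoImplicit false

/-!
# The Harbourne-Hirschowitz conjecture: classes which reduce to nearly equal multiplicities and a tail

A vector `v` of multiplicities is called a base vector if there are a set `S` of `n` of the points
and natural numbers `m ≥ n / 2` and `T` with

* `v i = m` or `v i = m + 1` at the points of `S` and `24 T + 16 √n / 3 + 95 ≤ n`, or
  `v i = m` at the points of `S`, `n ≥ 149` and `8 T + 8 √n / 3 + 29 ≤ n`;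
* `v i ≤ T` at all other points, and the sum of the squares of those of these `v i` which are at
  least `2` is at most `T (m - T)`.

So `m` and `m + 1` occur `n` times in any proportion, any number of points is simple, and the tail
consists of arbitrary multiplicities up to about `n / 24` (`n / 8` for equal `v i` on `S`); the number
of its points is not bounded (it grows with `m`).

A class `(d; w)` is good if `w ≤ v` and `χ (d; v) ≥ 0`, or `v ≤ w` and `χ (d; v) ≤ 0`, for some base
vector `v`. In particular all `(d; v)` are good. For general points no good class is special. For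
every class `(d; w)` at all, the linear system is special if and only if it is `(-1)`-special, unless
its reduced form is a special standard class which is not good.
-/

namespace Pool.Agent.Results.MP_6b2d39_ag.NearlyEqualTailOrbits

open MvPolynomial Pool.Agent.TH167.SHDefs

/-- The class is standard. -/
def Standard {h : ℕ} (d : ℕ) (w : Fin h → ℕ) : Prop :=
  ∀ i j k : Fin h, i ≠ j → i ≠ k → j ≠ k → w i + w j + w k ≤ d

/-- The base vectors: the multiplicities at the points of the set `S` are `m` or `m + 1`, or all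
equal to `m`, where `|S| ≤ 2 m`; the other multiplicities are at most `T`, which is bounded by about
`|S| / 24` resp. `|S| / 8`, and the sum of the squares of those of them which are larger than `1` is
at most `T (m - T)`. -/
def Base {h : ℕ} (v : Fin h → ℕ) : Prop :=
  ∃ (S : Finset (Fin h)) (m T : ℕ), S.card ≤ 2 * m ∧
    (((∀ i ∈ S, v i = m ∨ v i = m + 1) ∧
        24 * (T : ℝ) + 16 * √(S.card : ℝ) / 3 + 95 ≤ S.card) ∨
      ((∀ i ∈ S, v i = m) ∧ 149 ≤ S.card ∧
        8 * (T : ℝ) + 8 * √(S.card : ℝ) / 3 + 29 ≤ S.card)) ∧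
    (∀ j, j ∉ S → v j ≤ T) ∧
    ∑ j ∈ Finset.univ.filter (fun j => j ∉ S ∧ 2 ≤ v j), v j ^ 2 + T ^ 2 ≤ T * m

/-- The good classes: on one side of `χ = 0` with a base vector. -/
def Good {h : ℕ} (d : ℕ) (w : Fin h → ℕ) : Prop :=
  ∃ v : Fin h → ℕ, Base v ∧
    (((∀ i, w i ≤ v i) ∧ ∑ i, (v i + 1).choose 2 ≤ (d + 2).choose 2) ∨
      ((∀ i, v i ≤ w i) ∧ (d + 2).choose 2 ≤ ∑ i, (v i + 1).choose 2))

theorem good_exp {h d : ℕ} {w : Fin h → ℕ} (hw : Good d w) {K : Type} [Field K] [CharZero K]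
    {P : Fin h → Fin 2 → K}
    (hP : AlgebraicIndependent ℚ (fun ij : Fin h × Fin 2 => P ij.1 ij.2)) :
    Pool.Agent.H932R3.ExpDim K w P d :=
  Pool.Agent.U390.NT.good_exp hw hP

theorem not_special {h : ℕ} {d : ℕ} {w : Fin h → ℕ} (hw : Good d w) :
    ∃ F : MvPolynomial (Fin h × Fin 2) ℂ, F ≠ 0 ∧ ∀ P : Fin h → Fin 2 → ℂ,
      MvPolynomial.eval (fun ij : Fin h × Fin 2 => P ij.1 ij.2) F ≠ 0 → ¬ Special P d w := by
  obtain ⟨F, hF, hF'⟩ := Pool.Agent.TH442.NF.to_open (d := d) (w := w) fun hP => good_exp hw hP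
  refine ⟨F.map (algebraMap ℚ ℂ), Pool.Agent.H932R3.map_ne_zero_of hF, fun P hP => ?_⟩
  rw [MvPolynomial.eval_map] at hP
  have h1 : Module.finrank ℂ ↥(sys P d w) =
      Nat.choose (d + 2) 2 - ∑ i, Nat.choose (w i + 1) 2 := hF' (L := ℂ) P hP
  have h2 : ∑ i, ((w i + 1).choose 2 : ℤ) = ((∑ i, Nat.choose (w i + 1) 2 : ℕ) : ℤ) := by
    push_cast
    rfl
  unfold Special dimL virtdim
  rw [h1, h2]
  omega

theorem result (h : ℕ) (hh : 4 ≤ h) :
    (∀ (d : ℕ) (w : Fin h → ℕ), Good d w → ∃ F : MvPolynomial (Fin h × Fin 2) ℂ, F ≠ 0 ∧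
      ∀ P : Fin h → Fin 2 → ℂ, MvPolynomial.eval (fun ij : Fin h × Fin 2 => P ij.1 ij.2) F ≠ 0 →
        ¬ Special P d w) ∧
    ∀ (d : ℕ) (w : Fin h → ℕ), ∃ F : MvPolynomial (Fin h × Fin 2) ℂ, F ≠ 0 ∧
      ∀ P : Fin h → Fin 2 → ℂ, MvPolynomial.eval (fun ij : Fin h × Fin 2 => P ij.1 ij.2) F ≠ 0 →
        (MinusOneSpecial P d w → Special P d w) ∧
        (Special P d w → MinusOneSpecial P d w ∨
          ∃ (d'' : ℕ) (w'' : Fin h → ℕ) (k : ℕ) (G : Fin k → MvPolynomial (Fin 3) ℂ)
            (e : Fin k → ℕ) (u : Fin k → Fin h → ℕ) (N : Fin k → ℕ) (d' : ℕ) (w' : Fin h → ℕ),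
            Decomp P d w d'' w'' G e u N ∧
            Relation.ReflTransGen Quadratic (d'', w'') (d', w') ∧ Standard d' w' ∧
            Special P d' w' ∧ ¬ Good d' w') :=
  ⟨fun _ _ hG => not_special hG, fun d w => Pool.Agent.TH442.NF.hh_open hh
    (Q := fun d' w' => Good d' w') (fun hP _ _ _ hG => good_exp hG hP) d w⟩

end Pool.Agent.Results.MP_6b2d39_ag.NearlyEqualTailOrbits
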