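import Mathlib
import Pool.Agent.U605.ST.Side
import Pool.Agent.TH442.NF.HH

set_option autoImplicit false

/-!
# The Harbourne-Hirschowitz conjecture: classes which reduce to equal multiplicities and a small tail

A vector of `h` multiplicities is called a base vector if `n ≥ 36` of them are equal to `M`, any
number of them are `1` or `0`, and the others, the tail, are

* at most `3 √n / 4 - 3 / 2` with `4 ∑ v i (v i + 1) ≤ 3 (√n - 5) M` and `M ≥ n / 4`, or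
* at most `9 √n / 8 - 17 / 8` with `4 ∑ v i (v i + 1) ≤ (√n - 5) M` and `M ≥ n / 2`

(sums over the tail). A class `(d; w)` is good if `w ≤ v` and `χ (d; v) ≥ 0`, or `v ≤ w` and
`χ (d; v) ≤ 0`, for some base vector `v`. In particular all `(d; v)` are good.

For general points no good class is special. For every class `(d; w)` at all, the linear system is
special if and only if it is `(-1)`-special, unless its reduced form is a special standard class which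
is not good.
-/

namespace Pool.Agent.Results.MP_6b2d39_ag.SmallTailOrbits

open MvPolynomial Pool.Agent.TH167.SHDefs

/-- The class is standard. -/
def Standard {h : ℕ} (d : ℕ) (w : Fin h → ℕ) : Prop :=
  ∀ i j k : Fin h, i ≠ j → i ≠ k → j ≠ k → w i + w j + w k ≤ d

/-- The tail: the points whose multiplicity is at least `2` and different from `M`. -/
def tail {h : ℕ} (M : ℕ) (v : Fin h → ℕ) : Finset (Fin h) :=
  Finset.univ.filter fun i => 2 ≤ v i ∧ v i ≠ M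

/-- The base vectors. -/
def Base {h : ℕ} (v : Fin h → ℕ) : Prop :=
  ∃ n M : ℕ, 36 ≤ n ∧ (Finset.univ.filter fun i => v i = M).card = n ∧
    ((n ≤ 4 * M ∧ (∀ i ∈ tail M v, (v i : ℝ) ≤ 3 * √(n : ℝ) / 4 - 3 / 2) ∧
        4 * ∑ i ∈ tail M v, (v i : ℝ) * (v i + 1) ≤ 3 * (√(n : ℝ) - 5) * M) ∨
      (n ≤ 2 * M ∧ (∀ i ∈ tail M v, (v i : ℝ) ≤ 9 * √(n : ℝ) / 8 - 17 / 8) ∧
        4 * ∑ i ∈ tail M v, (v i : ℝ) * (v i + 1) ≤ (√(n : ℝ) - 5) * M))

/-- The good classes: on one side of `χ = 0` with a base vector. -/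
def Good {h : ℕ} (d : ℕ) (w : Fin h → ℕ) : Prop :=
  ∃ v : Fin h → ℕ, Base v ∧
    (((∀ i, w i ≤ v i) ∧ ∑ i, (v i + 1).choose 2 ≤ (d + 2).choose 2) ∨
      ((∀ i, v i ≤ w i) ∧ (d + 2).choose 2 ≤ ∑ i, (v i + 1).choose 2))

theorem base_exp {h : ℕ} {v : Fin h → ℕ} (hv : Base v) :
    ∃ F : MvPolynomial (Fin h × Fin 2) ℚ, F ≠ 0 ∧ ∀ {L : Type} [Field L] [CharZero L]
      (P : Fin h → Fin 2 → L), MvPolynomial.aeval (fun ij : Fin h × Fin 2 => P ij.1 ij.2) F ≠ 0 →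
      ∀ d, Pool.Agent.H932R3.ExpDim L v P d := by
  obtain ⟨n, M, hn, hcard, htail⟩ := hv
  refine Pool.Agent.U605.ST.expDim_tail v hn hcard ?_
  rcases htail with ⟨h0, h1, h2⟩ | ⟨h0, h1, h2⟩
  · refine Or.inr ⟨h0, ?_, ?_⟩
    · rintro b ⟨hb1, hb2, i, rfl⟩
      have := h1 i (Finset.mem_filter.2 ⟨Finset.mem_univ _, hb1, hb2⟩)
      linarith
    · rw [mul_assoc 3] at h2
      exact h2
  · refine Or.inl ⟨h0, ?_, h2⟩
    rintro b ⟨hb1, hb2, i, rfl⟩
    have := h1 i (Finset.mem_filter.2 ⟨Finset.mem_univ _, hb1, hb2⟩)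
    linarith

theorem good_exp {h d : ℕ} {w : Fin h → ℕ} (hw : Good d w) {K : Type} [Field K] [CharZero K]
    {P : Fin h → Fin 2 → K}
    (hP : AlgebraicIndependent ℚ (fun ij : Fin h × Fin 2 => P ij.1 ij.2)) :
    Pool.Agent.H932R3.ExpDim K w P d := by
  obtain ⟨v, hv, hs⟩ := hw
  obtain ⟨F, hF, hF'⟩ := base_exp hv
  exact Pool.Agent.U605.ST.expDim_side
    (hF' P (fun h0 => hF (hP.eq_zero_of_aeval_eq_zero F h0)) d) hs

theorem not_special {h : ℕ} {d : ℕ} {w : Fin h → ℕ} (hw : Good d w) :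
    ∃ F : MvPolynomial (Fin h × Fin 2) ℂ, F ≠ 0 ∧ ∀ P : Fin h → Fin 2 → ℂ,
      MvPolynomial.eval (fun ij : Fin h × Fin 2 => P ij.1 ij.2) F ≠ 0 → ¬ Special P d w := by
  obtain ⟨F, hF, hF'⟩ := Pool.Agent.TH442.NF.to_open (d := d) (w := w) fun hP => good_exp hw hP
  refine ⟨F.map (algebraMap ℚ ℂ), Pool.Agent.H932R3.map_ne_zero_of hF, fun P hP => ?_⟩
  rw [MvPolynomial.eval_map] at hP
  have h1 : Module.finrank ℂ ↥(sys P d w) =
      Nat.choose (d + 2) 2 - ∑ i, Nat.choose (w i + 1) 2 := hF' (L := ℂ) P hP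
  have h2 : ∑ i, ((w i + 1).choose 2 : ℤ) = ((∑ i, Nat.choose (w i + 1) 2 : ℕ) : ℤ) := by
    push_cast
    rfl
  unfold Special dimL virtdim
  rw [h1, h2]
  omega

theorem result (h : ℕ) (hh : 4 ≤ h) :
    (∀ (d : ℕ) (w : Fin h → ℕ), Good d w → ∃ F : MvPolynomial (Fin h × Fin 2) ℂ, F ≠ 0 ∧
      ∀ P : Fin h → Fin 2 → ℂ, MvPolynomial.eval (fun ij : Fin h × Fin 2 => P ij.1 ij.2) F ≠ 0 →
        ¬ Special P d w) ∧
    ∀ (d : ℕ) (w : Fin h → ℕ), ∃ F : MvPolynomial (Fin h × Fin 2) ℂ, F ≠ 0 ∧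
      ∀ P : Fin h → Fin 2 → ℂ, MvPolynomial.eval (fun ij : Fin h × Fin 2 => P ij.1 ij.2) F ≠ 0 →
        (MinusOneSpecial P d w → Special P d w) ∧
        (Special P d w → MinusOneSpecial P d w ∨
          ∃ (d'' : ℕ) (w'' : Fin h → ℕ) (k : ℕ) (G : Fin k → MvPolynomial (Fin 3) ℂ)
            (e : Fin k → ℕ) (u : Fin k → Fin h → ℕ) (N : Fin k → ℕ) (d' : ℕ) (w' : Fin h → ℕ),
            Decomp P d w d'' w'' G e u N ∧
            Relation.ReflTransGen Quadratic (d'', w'') (d', w') ∧ Standard d' w' ∧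
            Special P d' w' ∧ ¬ Good d' w') :=
  ⟨fun _ _ hG => not_special hG, fun d w => Pool.Agent.TH442.NF.hh_open hh
    (Q := fun d' w' => Good d' w') (fun hP _ _ _ hG => good_exp hG hP) d w⟩

end Pool.Agent.Results.MP_6b2d39_ag.SmallTailOrbits
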